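import Pool.Agent.H95.ESP.Stmts

/-!
# Board esp, row FML: the family of curves is finite and has at least `c X^(5/6)` members
-/

set_option autoImplicit false

namespace ESP
open Finset

namespace FML

theorem sum_le (n : ℕ) (hn : 1 ≤ n) :
    ∑ d ∈ Icc 2 n, 1 / (d : ℝ) ^ 4 ≤ 1 / 4 * (1 - 1 / (n : ℝ)) := by
  induction n, hn using Nat.le_induction with
  | base => simp
  | succ n hn ih =>
    rw [Finset.sum_Icc_succ_top (by omega)]
    have hn0 : (1 : ℝ) ≤ n := by exact_mod_cast hn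
    have h1 : 1 / ((n + 1 : ℕ) : ℝ) ^ 4 ≤ 1 / 4 * (1 / (n : ℝ) - 1 / ((n + 1 : ℕ) : ℝ)) := by
      push_cast
      rw [div_sub_div _ _ (by positivity) (by positivity), one_mul, mul_one, add_sub_cancel_left,
        ← mul_div_assoc, mul_one, div_le_div_iff₀ (by positivity) (by positivity)]
      have h2 : (4 : ℝ) * n ≤ (n + 1) ^ 3 := by nlinarith [sq_nonneg ((n : ℝ) - 1)]
      nlinarith [mul_le_mul_of_nonneg_right h2 (by positivity : (0 : ℝ) ≤ n + 1)]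
    linarith

theorem sieve (A : ℕ) (hA : 1 ≤ A) :
    (3 / 4 : ℝ) * A ≤
      (((Ioc 0 A).filter (fun a => ∀ d ∈ Icc 2 A, ¬ d ^ 4 ∣ a)).card : ℝ) := by
  classical
  have h1 := Finset.card_filter_add_card_filter_not (s := Ioc 0 A)
    (fun a => ∀ d ∈ Icc 2 A, ¬ d ^ 4 ∣ a)
  rw [Nat.card_Ioc, Nat.sub_zero] at h1
  have h2 : ((Ioc 0 A).filter (fun a => ¬ ∀ d ∈ Icc 2 A, ¬ d ^ 4 ∣ a)) ⊆
      (Icc 2 A).biUnion (fun d => (Ioc 0 A).filter (fun a => d ^ 4 ∣ a)) := by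
    intro a ha
    rw [mem_filter] at ha
    push Not at ha
    obtain ⟨ha1, d, hd, hda⟩ := ha
    exact mem_biUnion.2 ⟨d, hd, mem_filter.2 ⟨ha1, hda⟩⟩
  have h3 : (((Ioc 0 A).filter (fun a => ¬ ∀ d ∈ Icc 2 A, ¬ d ^ 4 ∣ a)).card : ℝ) ≤
      (1 / 4 : ℝ) * A := by
    have h4 := (card_le_card h2).trans card_biUnion_le
    have h5 : ∀ d ∈ Icc 2 A, (((Ioc 0 A).filter (fun a => d ^ 4 ∣ a)).card : ℝ) ≤
        A * (1 / (d : ℝ) ^ 4) := by
      intro d _
      rw [Nat.Ioc_filter_dvd_card_eq_div]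
      refine Nat.cast_div_le.trans (le_of_eq ?_)
      push_cast
      ring
    have h6 : (((Ioc 0 A).filter (fun a => ¬ ∀ d ∈ Icc 2 A, ¬ d ^ 4 ∣ a)).card : ℝ) ≤
        ∑ d ∈ Icc 2 A, (A : ℝ) * (1 / (d : ℝ) ^ 4) := by
      refine le_trans ?_ (Finset.sum_le_sum h5)
      exact_mod_cast h4
    rw [← Finset.mul_sum] at h6
    have h7 := sum_le A hA
    have h8 : (0 : ℝ) ≤ 1 / (A : ℝ) := by positivity
    have h9 : (0 : ℝ) ≤ A := by positivity
    nlinarith [mul_le_mul_of_nonneg_left h7 h9, mul_nonneg h9 h8]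
  have h4 : (((Ioc 0 A).filter (fun a => ∀ d ∈ Icc 2 A, ¬ d ^ 4 ∣ a)).card : ℝ) +
      (((Ioc 0 A).filter (fun a => ¬ ∀ d ∈ Icc 2 A, ¬ d ^ 4 ∣ a)).card : ℝ) = A := by
    exact_mod_cast h1
  linarith

theorem fin (X : ℝ) : (Fam X).Finite := by
  have h1 : Fam X ⊆ ((Icc (-⌈X⌉) ⌈X⌉ ×ˢ Icc (-⌈X⌉) ⌈X⌉ : Finset (ℤ × ℤ)) : Set (ℤ × ℤ)) := by
    rintro ⟨a, b⟩ ⟨-, ha, hb⟩
    simp only at ha hb
    rw [Finset.mem_coe, mem_product, mem_Icc, mem_Icc, ← abs_le, ← abs_le]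
    constructor
    · have h2 : ((|a| : ℤ) : ℝ) ≤ X := by
        rw [Int.cast_abs]
        have h3 : |a| ≤ |a| ^ 3 := by
          rcases eq_or_ne a 0 with rfl | h
          · simp
          · exact le_self_pow₀ (Int.one_le_abs h) (by norm_num)
        have h4 : |(a : ℝ)| ≤ |(a : ℝ)| ^ 3 := by exact_mod_cast h3
        have h5 : 0 ≤ |(a : ℝ)| ^ 3 := by positivity
        linarith
      exact_mod_cast h2.trans (Int.le_ceil X)
    · have h2 : ((|b| : ℤ) : ℝ) ≤ X := by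
        rw [Int.cast_abs]
        have h3 : |b| ≤ b ^ 2 := by
          rw [← sq_abs]
          rcases eq_or_ne b 0 with rfl | h
          · simp
          · exact le_self_pow₀ (Int.one_le_abs h) (by norm_num)
        have h4 : |(b : ℝ)| ≤ (b : ℝ) ^ 2 := by exact_mod_cast h3
        have h5 : 0 ≤ (b : ℝ) ^ 2 := by positivity
        linarith
      exact_mod_cast h2.trans (Int.le_ceil X)
  exact (Finset.finite_toSet _).subset h1

end FML

open FML in
/-- Row FML. -/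
theorem fml_thm : S_FML := by
  classical
  refine ⟨FML.fin, 3 / 8 * (1 / 4) ^ (1 / 3 : ℝ) * (1 / 27) ^ (1 / 2 : ℝ), by positivity, ?_⟩
  intro X hX
  have hX0 : 0 ≤ X := by linarith
  set s : ℝ := (X / 4) ^ (1 / 3 : ℝ) with hs
  set t : ℝ := (X / 27) ^ (1 / 2 : ℝ) with ht
  have hs0 : 0 ≤ s := by positivity
  have ht0 : 0 ≤ t := by positivity
  have hs1 : 1 ≤ s := Real.one_le_rpow (by linarith) (by norm_num)
  have hs3 : s ^ 3 = X / 4 := by
    rw [hs, ← Real.rpow_natCast, ← Real.rpow_mul (by positivity)]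
    norm_num
  have ht2 : t ^ 2 = X / 27 := by
    rw [ht, ← Real.rpow_natCast, ← Real.rpow_mul (by positivity)]
    norm_num
  set A : ℕ := ⌊s⌋₊ with hA
  set B : ℕ := ⌊t⌋₊ with hB
  have hA1 : 1 ≤ A := Nat.le_floor (by simpa using hs1)
  have hAs : (A : ℝ) ≤ s := Nat.floor_le hs0
  have hBt : (B : ℝ) ≤ t := Nat.floor_le ht0
  have hA2 : s / 2 ≤ A := by
    have h1 := Nat.lt_floor_add_one s
    rw [← hA] at h1
    have h2 : (1 : ℝ) ≤ A := by exact_mod_cast hA1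
    linarith
  have hB2 : t ≤ 2 * B + 1 := by
    have h1 := Nat.lt_floor_add_one t
    rw [← hB] at h1
    have h2 : (0 : ℝ) ≤ B := by positivity
    linarith
  set S : Finset ℕ := (Ioc 0 A).filter (fun a => ∀ d ∈ Icc 2 A, ¬ d ^ 4 ∣ a) with hS
  have hScard : (3 / 4 : ℝ) * A ≤ (S.card : ℝ) := sieve A hA1
  set F : Finset (ℤ × ℤ) := (S ×ˢ (Icc (-(B : ℤ)) B)).image
    (fun q : ℕ × ℤ => ((q.1 : ℤ), q.2)) with hF
  have hFcard : F.card = S.card * (2 * B + 1) := by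
    rw [hF, card_image_of_injective, card_product, Int.card_Icc]
    · congr 1
      omega
    · rintro ⟨a, b⟩ ⟨a', b'⟩ h
      simp only [Prod.mk.injEq, Nat.cast_inj] at h
      exact Prod.ext h.1 h.2
  have hFsub : (F : Set (ℤ × ℤ)) ⊆ Fam X := by
    intro q hq
    rw [Finset.mem_coe, hF, mem_image] at hq
    obtain ⟨⟨a, b⟩, hab, rfl⟩ := hq
    rw [mem_product, hS, mem_filter, mem_Ioc, mem_Icc] at hab
    obtain ⟨⟨⟨ha0, haA⟩, had⟩, hb1, hb2⟩ := hab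
    simp only at ha0 haA had hb1 hb2
    have haR : (0 : ℝ) < a := by exact_mod_cast ha0
    have haAR : (a : ℝ) ≤ s := le_trans (by exact_mod_cast haA) hAs
    refine ⟨⟨?_, ?_⟩, ?_, ?_⟩
    · have h1 : (0 : ℤ) < a := by exact_mod_cast ha0
      have h2 : 0 < D (a : ℤ) b := by
        unfold D
        positivity
      exact h2.ne'
    · rintro p hp ⟨h1, -⟩
      simp only at h1
      have h2 : p ^ 4 ∣ a := by exact_mod_cast h1
      refine had p ?_ h2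
      rw [mem_Icc]
      refine ⟨hp.two_le, le_trans ?_ ((Nat.le_of_dvd ha0 h2).trans haA)⟩
      exact Nat.le_self_pow (by norm_num) p
    · simp only [Int.cast_natCast]
      rw [abs_of_pos haR]
      have h1 : (a : ℝ) ^ 3 ≤ s ^ 3 := pow_le_pow_left₀ haR.le haAR 3
      rw [hs3] at h1
      linarith
    · simp only
      have h1 : |(b : ℝ)| ≤ t := by
        refine le_trans ?_ hBt
        have h2 : |b| ≤ (B : ℤ) := abs_le.2 ⟨hb1, hb2⟩
        exact_mod_cast h2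
      have h2 : |(b : ℝ)| ^ 2 ≤ t ^ 2 := pow_le_pow_left₀ (abs_nonneg _) h1 2
      rw [ht2, sq_abs] at h2
      linarith
  have h1 : (F.card : ℝ) ≤ ((Fam X).ncard : ℝ) := by
    rw [← Set.ncard_coe_finset F]
    exact_mod_cast Set.ncard_le_ncard hFsub (FML.fin X)
  refine le_trans ?_ h1
  rw [hFcard]
  push_cast
  have h2 : X ^ (5 / 6 : ℝ) = X ^ (1 / 3 : ℝ) * X ^ (1 / 2 : ℝ) := by
    rw [← Real.rpow_add (by linarith)]
    norm_num
  have h3 : s = (1 / 4) ^ (1 / 3 : ℝ) * X ^ (1 / 3 : ℝ) := by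
    rw [hs, div_eq_mul_one_div, mul_comm, Real.mul_rpow (by norm_num) hX0]
  have h4 : t = (1 / 27) ^ (1 / 2 : ℝ) * X ^ (1 / 2 : ℝ) := by
    rw [ht, div_eq_mul_one_div, mul_comm, Real.mul_rpow (by norm_num) hX0]
  have h5 : 3 / 8 * (1 / 4) ^ (1 / 3 : ℝ) * (1 / 27) ^ (1 / 2 : ℝ) * X ^ (5 / 6 : ℝ) =
      3 / 8 * s * t := by
    rw [h2, h3, h4]
    ring
  rw [h5]
  calc 3 / 8 * s * t ≤ (3 / 4 * A) * t := by nlinarith
    _ ≤ (S.card : ℝ) * (2 * B + 1) := by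
      refine mul_le_mul hScard hB2 ht0 (by positivity)

end ESP
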